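import Pool.Agent.H73.REM.Meas
import Pool.Agent.H74.RM.Rm

/-!
# Affine maps `ℝ^m → ℝ^c`: determinants and maximal minors

`Aff m c` is the type of the coefficients of an affine map, `ev L p` its value at the place `p`.

* `det_box`: the determinant of `c` affine maps which is small on a small box is small on a large
  box;
* `hv`: the vector of the maximal minors of `c` affine maps to `ℝ^(c+1)`; its entries are
  polynomials of degree at most `c` in the place (`hvP`), `∑ hv i * v i` is the determinant of the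
  `c` values and `v`;
* `hv_par`: two such vectors are almost parallel when all determinants are small;
* `hv_cells`: the vector is not small in most of the cells of a grid.
-/

set_option autoImplicit false

namespace Pool.POL

open Finset

variable {m c : ℕ}

/-- Coefficients of an affine map `ℝ^m → ℝ^c`: `L 0` is the value at the origin, `L (j+1)` the
derivative in the direction `j`. -/
abbrev Aff (m c : ℕ) := Fin (m + 1) → Fin c → ℝ

/-- The value at the place `p`. -/
def ev (L : Aff m c) (p : Fin m → ℝ) (i : Fin c) : ℝ := L 0 i + ∑ j : Fin m, p j * L j.succ i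

/-- The values as polynomials. -/
noncomputable def evP (L : Aff m c) (i : Fin c) : MvPolynomial (Fin m) ℝ :=
  MvPolynomial.C (L 0 i) + ∑ j : Fin m, MvPolynomial.X j * MvPolynomial.C (L j.succ i)

theorem eval_evP (L : Aff m c) (i : Fin c) (p : Fin m → ℝ) :
    MvPolynomial.eval p (evP L i) = ev L p i := by
  simp [evP, ev]

theorem deg_evP (L : Aff m c) (i : Fin c) : (evP L i).totalDegree ≤ 1 := by
  unfold evP
  refine (MvPolynomial.totalDegree_add _ _).trans (max_le ?_ ?_)
  · rw [MvPolynomial.totalDegree_C]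
    exact Nat.zero_le _
  · refine MvPolynomial.totalDegree_finsetSum_le fun j _ => ?_
    refine (MvPolynomial.totalDegree_mul _ _).trans ?_
    rw [MvPolynomial.totalDegree_C, MvPolynomial.totalDegree_X]

/-- the determinant of a matrix of polynomials of degree at most one. -/
theorem deg_det {ι : Type*} [Fintype ι] [DecidableEq ι] {σ : Type*}
    (A : Matrix ι ι (MvPolynomial σ ℝ)) (hA : ∀ i j, (A i j).totalDegree ≤ 1) :
    (A.det).totalDegree ≤ Fintype.card ι := by
  rw [Matrix.det_apply']
  refine MvPolynomial.totalDegree_finsetSum_le fun τ _ => ?_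
  refine (MvPolynomial.totalDegree_mul _ _).trans ?_
  have h1 : (((Equiv.Perm.sign τ : ℤ) : MvPolynomial σ ℝ)).totalDegree = 0 := by
    have : (((Equiv.Perm.sign τ : ℤ) : MvPolynomial σ ℝ)) =
        MvPolynomial.C (((Equiv.Perm.sign τ : ℤ) : ℝ)) := by
      rw [map_intCast]
    rw [this, MvPolynomial.totalDegree_C]
  rw [h1, zero_add]
  refine (MvPolynomial.totalDegree_finsetProd _ _).trans ?_
  refine (Finset.sum_le_sum fun i _ => hA (τ i) i).trans ?_
  simp

/-- The determinant of the values of `c` affine maps. -/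
noncomputable def dt (D : Fin c → Aff m c) (p : Fin m → ℝ) : ℝ :=
  Matrix.det (Matrix.of fun i j => ev (D i) p j)

/-- The determinant as a polynomial. -/
noncomputable def dtP (D : Fin c → Aff m c) : MvPolynomial (Fin m) ℝ :=
  Matrix.det (Matrix.of fun i j => evP (D i) j)

theorem eval_dtP (D : Fin c → Aff m c) (p : Fin m → ℝ) :
    MvPolynomial.eval p (dtP D) = dt D p := by
  unfold dtP dt
  rw [RingHom.map_det]
  congr 1
  ext i j
  simp [eval_evP]

theorem deg_dtP (D : Fin c → Aff m c) : (dtP D).totalDegree ≤ c := by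
  have := deg_det (Matrix.of fun i j => evP (D i) j) (fun i j => deg_evP (D i) j)
  simpa [dtP] using this

/-! ### From a small box to a large box -/

/-- a polynomial in several variables along a line. -/
theorem line_poly (f : MvPolynomial (Fin m) ℝ) (p₀ u : Fin m → ℝ) :
    ∃ g : Polynomial ℝ, g.natDegree ≤ f.totalDegree ∧
      ∀ s : ℝ, g.eval s = MvPolynomial.eval (fun j => p₀ j + s * u j) f := by
  refine ⟨MvPolynomial.aeval (fun j => Polynomial.C (p₀ j) + Polynomial.X * Polynomial.C (u j)) f,
    ?_, ?_⟩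
  · rw [MvPolynomial.aeval_def, MvPolynomial.eval₂_eq]
    refine Polynomial.natDegree_sum_le_of_forall_le _ _ fun d hd => ?_
    refine (Polynomial.natDegree_mul_le).trans ?_
    have h1 : ((algebraMap ℝ (Polynomial ℝ)) (MvPolynomial.coeff d f)).natDegree = 0 := by
      rw [Polynomial.algebraMap_apply]
      exact Polynomial.natDegree_C _
    rw [h1, zero_add]
    refine (Polynomial.natDegree_prod_le _ _).trans ?_
    refine le_trans (Finset.sum_le_sum (g := fun j => d j) fun j _ => ?_) ?_
    · refine (Polynomial.natDegree_pow_le).trans ?_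
      have h2 : (Polynomial.C (p₀ j) + Polynomial.X * Polynomial.C (u j)).natDegree ≤ 1 := by
        refine (Polynomial.natDegree_add_le _ _).trans (max_le ?_ ?_)
        · rw [Polynomial.natDegree_C]; exact Nat.zero_le _
        · refine (Polynomial.natDegree_mul_le).trans ?_
          rw [Polynomial.natDegree_C, Polynomial.natDegree_X]
      calc d j * _ ≤ d j * 1 := Nat.mul_le_mul_left _ h2
        _ = d j := mul_one _
    · exact MvPolynomial.le_totalDegree hd
  · intro s
    rw [← Polynomial.coe_evalRingHom, ← MvPolynomial.coe_aeval_eq_eval]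
    rw [MvPolynomial.aeval_def, MvPolynomial.hom_eval₂, RingHom.coe_coe, MvPolynomial.aeval_def]
    congr 1
    · ext x; simp
    · funext j
      simp
      ring

/-- **From a small box to a large box**, several variables. -/
theorem box_ext (f : MvPolynomial (Fin m) ℝ) (d : ℕ) (hd : f.totalDegree ≤ d) (p₀ : Fin m → ℝ)
    {ρ R ε : ℝ} (hρ : 0 < ρ) (hR : ρ ≤ R)
    (hf : ∀ p : Fin m → ℝ, (∀ j, |p j - p₀ j| ≤ ρ) → |MvPolynomial.eval p f| ≤ ε)
    (p : Fin m → ℝ) (hp : ∀ j, |p j - p₀ j| ≤ R) :
    |MvPolynomial.eval p f| ≤ (d + 1) * ((2 * d + 1) * (R / ρ)) ^ d * ε := by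
  have hR0 : 0 < R := lt_of_lt_of_le hρ hR
  obtain ⟨g, hg, hge⟩ := line_poly f p₀ (fun j => (p j - p₀ j) / R)
  have hvol : (MeasureTheory.volume (Set.Icc (-ρ) ρ)).toReal = 2 * ρ := by
    rw [Real.volume_Icc, ENNReal.toReal_ofReal (by linarith)]
    ring
  have h1 := Pool.REM.remez g d (hg.trans hd) (E := Set.Icc (-ρ) ρ) (a := -ρ) (b := ρ)
    (L := 2 * R) (B := ε) (le_refl _) (by rw [hvol]; linarith) (by
      intro s hs
      rw [hge]
      apply hf
      intro j
      have hs' : |s| ≤ ρ := abs_le.2 hs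
      rw [add_sub_cancel_left, abs_mul, abs_div, abs_of_pos hR0]
      calc |s| * (|p j - p₀ j| / R) ≤ ρ * 1 := by
            apply mul_le_mul hs' _ (by positivity) hρ.le
            rw [div_le_one hR0]
            exact hp j
        _ = ρ := mul_one _) R (by
      intro s hs
      rw [abs_le]
      constructor <;> linarith [hs.1, hs.2])
  rw [hge] at h1
  have e1 : (fun j => p₀ j + R * ((p j - p₀ j) / R)) = p := by
    funext j
    field_simp
    ring
  rw [e1] at h1
  refine h1.trans (le_of_eq ?_)
  rw [hvol]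
  congr 3
  field_simp

/-- **The determinant of `c` affine maps, small on a small box, is small on a large box.** -/
theorem det_box (D : Fin c → Aff m c) (p₀ : Fin m → ℝ) {ρ R ε : ℝ} (hρ : 0 < ρ) (hR : ρ ≤ R)
    (hD : ∀ p : Fin m → ℝ, (∀ j, |p j - p₀ j| ≤ ρ) → |dt D p| ≤ ε)
    (p : Fin m → ℝ) (hp : ∀ j, |p j - p₀ j| ≤ R) :
    |dt D p| ≤ (c + 1) * ((2 * c + 1) * (R / ρ)) ^ c * ε := by
  have := box_ext (dtP D) c (deg_dtP D) p₀ hρ hR (ε := ε) (by
    intro q hq
    rw [eval_dtP]
    exact hD q hq) p hp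
  rwa [eval_dtP] at this

/-! ### The vector of the maximal minors -/

/-- the vector of the maximal minors of a `c × (c+1)` matrix -/
noncomputable def mn {R : Type*} [CommRing R] (V : Fin c → Fin (c + 1) → R) (i : Fin (c + 1)) : R :=
  (-1) ^ (i : ℕ) * Matrix.det (Matrix.of fun a b : Fin c => V a (i.succAbove b))

/-- **the scalar product with the vector of the minors is the determinant.** -/
theorem mn_dot {R : Type*} [CommRing R] (V : Fin c → Fin (c + 1) → R) (v : Fin (c + 1) → R) :
    ∑ i, mn V i * v i = Matrix.det (Matrix.of (Fin.cons v V : Fin (c + 1) → Fin (c + 1) → R)) := by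
  rw [Matrix.det_succ_row_zero]
  refine Finset.sum_congr rfl fun i _ => ?_
  unfold mn
  have : (Matrix.of (Fin.cons v V : Fin (c + 1) → Fin (c + 1) → R)).submatrix Fin.succ i.succAbove =
      Matrix.of fun a b : Fin c => V a (i.succAbove b) := by
    ext a b
    simp
  rw [this]
  simp only [Matrix.of_apply, Fin.cons_zero]
  ring

/-- the vector of the minors is orthogonal to the rows. -/
theorem mn_row {R : Type*} [CommRing R] (V : Fin c → Fin (c + 1) → R) (a : Fin c) :
    ∑ i, mn V i * V a i = 0 := by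
  rw [mn_dot]
  apply Matrix.det_zero_of_row_eq (i := 0) (j := a.succ)
  · exact (Fin.succ_ne_zero a).symm
  · funext b
    simp

theorem map_mn {R S : Type*} [CommRing R] [CommRing S] (φ : R →+* S)
    (V : Fin c → Fin (c + 1) → R) (i : Fin (c + 1)) :
    φ (mn V i) = mn (fun a b => φ (V a b)) i := by
  unfold mn
  rw [map_mul, map_pow, map_neg, map_one, RingHom.map_det]
  rfl

/-- The vector of the maximal minors of `c` affine maps `ℝ^m → ℝ^(c+1)`. -/
noncomputable def hv (D : Fin c → Aff m (c + 1)) (p : Fin m → ℝ) (i : Fin (c + 1)) : ℝ :=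
  mn (fun a b => ev (D a) p b) i

/-- Its entries as polynomials. -/
noncomputable def hvP (D : Fin c → Aff m (c + 1)) (i : Fin (c + 1)) : MvPolynomial (Fin m) ℝ :=
  mn (fun a b => evP (D a) b) i

theorem eval_hvP (D : Fin c → Aff m (c + 1)) (i : Fin (c + 1)) (p : Fin m → ℝ) :
    MvPolynomial.eval p (hvP D i) = hv D p i := by
  unfold hvP hv
  rw [map_mn]
  congr 1
  funext a b
  exact eval_evP _ _ _

theorem deg_hvP (D : Fin c → Aff m (c + 1)) (i : Fin (c + 1)) : (hvP D i).totalDegree ≤ c := by
  unfold hvP mn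
  refine (MvPolynomial.totalDegree_mul _ _).trans ?_
  have h1 : ((-1 : MvPolynomial (Fin m) ℝ) ^ (i : ℕ)).totalDegree = 0 := by
    have : ((-1 : MvPolynomial (Fin m) ℝ) ^ (i : ℕ)) = MvPolynomial.C ((-1) ^ (i : ℕ)) := by
      rw [map_pow, map_neg, map_one]
    rw [this, MvPolynomial.totalDegree_C]
  rw [h1, zero_add]
  refine (deg_det _ fun a b => deg_evP _ _).trans ?_
  simp

/-- The scalar product of the vector of minors with the value of a further affine map is a
determinant. -/
theorem hv_dot (D : Fin c → Aff m (c + 1)) (L : Aff m (c + 1)) (p : Fin m → ℝ) :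
    ∑ i, hv D p i * ev L p i = dt (Fin.cons L D : Fin (c + 1) → Aff m (c + 1)) p := by
  unfold hv
  rw [mn_dot]
  unfold dt
  congr 1
  ext i j
  refine Fin.cases ?_ (fun a => ?_) i
  · simp
  · simp

theorem hv_row (D : Fin c → Aff m (c + 1)) (a : Fin c) (p : Fin m → ℝ) :
    ∑ i, hv D p i * ev (D a) p i = 0 := mn_row _ a

/-- **Orthogonality up to errors on the large box.** -/
theorem hv_box (D : Fin c → Aff m (c + 1)) (L : Aff m (c + 1)) (p₀ : Fin m → ℝ) {ρ R ε : ℝ}
    (hρ : 0 < ρ) (hR : ρ ≤ R)
    (hD : ∀ p : Fin m → ℝ, (∀ j, |p j - p₀ j| ≤ ρ) → |∑ i, hv D p i * ev L p i| ≤ ε)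
    (p : Fin m → ℝ) (hp : ∀ j, |p j - p₀ j| ≤ R) :
    |∑ i, hv D p i * ev L p i| ≤ (c + 2) * ((2 * c + 3) * (R / ρ)) ^ (c + 1) * ε := by
  simp only [hv_dot] at hD ⊢
  refine (det_box _ p₀ hρ hR hD p hp).trans (le_of_eq ?_)
  push_cast
  ring

/-! ### Two choices give parallel vectors -/

/-- entries of the adjugate of a matrix with entries at most one. -/
theorem adj_le {n : ℕ} (M : Matrix (Fin n) (Fin n) ℝ) (hM : ∀ i j, |M i j| ≤ 1) (i j : Fin n) :
    |M.adjugate i j| ≤ n.factorial := by
  classical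
  rw [Matrix.adjugate_apply]
  have h1 : ∀ a b, |(M.updateRow j (Pi.single i 1)) a b| ≤ 1 := by
    intro a b
    by_cases ha : a = j
    · rw [ha, Matrix.updateRow_self]
      by_cases hb : b = i
      · rw [hb, Pi.single_eq_same, abs_one]
      · rw [Pi.single_eq_of_ne hb, abs_zero]
        exact zero_le_one
    · rw [Matrix.updateRow_ne ha]
      exact hM a b
  have := Matrix.det_le (abv := AbsoluteValue.abs) (x := 1) h1
  simpa using this

/-- If all entries of `W` are at most one and `h` is almost orthogonal to the rows of `W` then `h`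
is almost parallel to the vector of the minors of `W`. -/
theorem mn_par (h : Fin (c + 1) → ℝ) (W : Fin c → Fin (c + 1) → ℝ) (hW : ∀ a b, |W a b| ≤ 1)
    {ε : ℝ} (hε : 0 ≤ ε) (hh : ∀ a, |∑ i, h i * W a i| ≤ ε) (i j : Fin (c + 1)) :
    |h i * mn W j - h j * mn W i| ≤ c * (c + 1).factorial * ε := by
  classical
  obtain ⟨i₀, _, hi₀⟩ := Finset.exists_max_image univ (fun i => |h i|) ⟨i, mem_univ _⟩
  by_cases h0 : |h i₀| = 0
  · have hz : ∀ i, h i = 0 := fun i =>
      abs_eq_zero.1 (le_antisymm (h0 ▸ hi₀ i (mem_univ _)) (abs_nonneg _))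
    rw [hz i, hz j]
    simp only [zero_mul, sub_zero, abs_zero]
    positivity
  have hH : 0 < |h i₀| := lt_of_le_of_ne (abs_nonneg _) (Ne.symm h0)
  let x : Fin (c + 1) → ℝ := fun b =>
    (h i * (if b = j then 1 else 0) - h j * (if b = i then 1 else 0)) / |h i₀|
  have hx1 : ∀ b, |x b| ≤ 1 := by
    intro b
    simp only [x]
    rw [abs_div, abs_abs, div_le_one hH]
    by_cases hb : b = j
    · by_cases hb' : b = i
      · rw [if_pos hb, if_pos hb', ← hb, ← hb', sub_self, abs_zero]
        exact hH.le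
      · rw [if_pos hb, if_neg hb', mul_one, mul_zero, sub_zero]
        exact hi₀ i (mem_univ _)
    · by_cases hb' : b = i
      · rw [if_neg hb, if_pos hb', mul_one, mul_zero, zero_sub, abs_neg]
        exact hi₀ j (mem_univ _)
      · rw [if_neg hb, if_neg hb', mul_zero, mul_zero, sub_zero, abs_zero]
        exact hH.le
  have hxs : ∀ g : Fin (c + 1) → ℝ, ∑ b, g b * x b = (h i * g j - h j * g i) / |h i₀| := by
    intro g
    simp only [x]
    have e : ∀ b, g b * ((h i * (if b = j then (1 : ℝ) else 0) -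
        h j * (if b = i then (1 : ℝ) else 0)) / |h i₀|) =
        ((if b = j then h i * g b else 0) - (if b = i then h j * g b else 0)) / |h i₀| := by
      intro b
      split_ifs <;> ring
    simp only [e]
    rw [← Finset.sum_div, Finset.sum_sub_distrib]
    simp
  let M : Matrix (Fin (c + 1)) (Fin (c + 1)) ℝ := Matrix.of (Fin.cons x W)
  have hM1 : ∀ a b, |M a b| ≤ 1 := by
    intro a b
    refine Fin.cases ?_ (fun a' => ?_) a
    · simpa [M] using hx1 b
    · simpa [M] using hW a' b
  have hMh0 : M.mulVec h 0 = 0 := by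
    change ∑ b, M 0 b * h b = 0
    have : ∀ b, M 0 b * h b = h b * x b := by
      intro b
      simp [M, mul_comm]
    simp only [this, hxs]
    rw [mul_comm (h i), sub_self, zero_div]
  have hMh : ∀ a : Fin c, |M.mulVec h a.succ| ≤ ε := by
    intro a
    change |∑ b, M a.succ b * h b| ≤ ε
    have : ∀ b, M a.succ b * h b = h b * W a b := by
      intro b
      simp [M, mul_comm]
    simp only [this]
    exact hh a
  have hdet : M.det * h i₀ = ∑ a : Fin c, M.adjugate i₀ a.succ * M.mulVec h a.succ := by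
    have h1 : M.adjugate.mulVec (M.mulVec h) = M.det • h := by
      rw [Matrix.mulVec_mulVec, Matrix.adjugate_mul, Matrix.smul_mulVec, Matrix.one_mulVec]
    have h2 := congrFun h1 i₀
    rw [Pi.smul_apply, smul_eq_mul] at h2
    rw [← h2]
    change ∑ a, M.adjugate i₀ a * M.mulVec h a = _
    rw [Fin.sum_univ_succ, hMh0, mul_zero, zero_add]
  have hb : |M.det * h i₀| ≤ c * (c + 1).factorial * ε := by
    rw [hdet]
    refine (Finset.abs_sum_le_sum_abs _ _).trans ?_
    have h2 : ∀ a ∈ (univ : Finset (Fin c)), |M.adjugate i₀ a.succ * M.mulVec h a.succ| ≤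
        (c + 1).factorial * ε := by
      intro a _
      rw [abs_mul]
      exact mul_le_mul (adj_le M hM1 _ _) (hMh a) (abs_nonneg _) (by positivity)
    refine (Finset.sum_le_sum h2).trans (le_of_eq ?_)
    rw [Finset.sum_const, Finset.card_univ, Fintype.card_fin, nsmul_eq_mul]
    ring
  have hfin : h i * mn W j - h j * mn W i = |h i₀| * M.det := by
    have h1 := mn_dot W x
    rw [hxs (mn W)] at h1
    change _ = M.det at h1
    rw [← h1]
    field_simp
  rw [hfin, abs_mul, abs_abs, mul_comm, ← abs_mul]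
  exact hb

/-- **Two choices give parallel vectors.** -/
theorem hv_par (D E : Fin c → Aff m (c + 1)) (p : Fin m → ℝ) (hE : ∀ a b, |ev (E a) p b| ≤ 1)
    {ε : ℝ} (hε : 0 ≤ ε)
    (hd : ∀ a, |dt (Fin.cons (E a) D : Fin (c + 1) → Aff m (c + 1)) p| ≤ ε) (i j : Fin (c + 1)) :
    |hv D p i * hv E p j - hv D p j * hv E p i| ≤ c * (c + 1).factorial * ε := by
  refine mn_par (hv D p) (fun a b => ev (E a) p b) hE hε (fun a => ?_) i j
  have := hv_dot D (E a) p
  rw [this]
  exact hd a

/-! ### The vector is not small in most of the cells -/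

/-- **Cells** (Remez at one scale).  If the vector of the minors is larger than
`((c + 1) * M ^ c) ^ (m + 1) * t` at one place of the unit cube then the cells of side `1/M` which
contain a place where all minors are at most `t` are at most `cst m c * M ^ m`. -/
theorem hv_cells {M : ℕ} (hM : 0 < M) (D : Fin c → Aff (m + 1) (c + 1)) {t : ℝ}
    (x : Fin (m + 1) → ℝ) (hx : ∀ j, 0 ≤ x j ∧ x j ≤ 1) (i : Fin (c + 1))
    (hxt : (((c + 1 : ℕ) : ℝ) * (M : ℝ) ^ c) ^ (m + 1) * t < |hv D x i|)
    (S : Finset (Fin (m + 1) → ℤ))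
    (hS : ∀ q ∈ S, ∃ y : Fin (m + 1) → ℝ, (∀ j, 0 ≤ y j ∧ y j < 1) ∧ Pool.RM.cell M y = q ∧
      |hv D y i| ≤ t) : S.card ≤ Pool.RM.cst m c * M ^ m := by
  by_contra hc
  have := Pool.RM.remez_cell m hM c (hvP D i) (deg_hvP D i) t S (by
    intro q hq
    obtain ⟨y, h1, h2, h3⟩ := hS q hq
    exact ⟨y, h1, h2, by rw [eval_hvP]; exact h3⟩) (not_le.mp hc) x hx
  rw [eval_hvP] at this
  linarith

end Pool.POL
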