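import Pool.Agent.H86.POL.Det

/-!
# Affine maps `ℝ^m → ℝ^2`: constant direction or one map

A family `BB` of affine maps `ℝ^m → ℝ^2` with coefficients at most one such that the values of any
two members are almost parallel at every place of the box `|p| ≤ 1`: either all values are close to
one line through the origin (`h` has a constant direction), or all members are close to multiples of
one member (`two`).
-/

set_option autoImplicit false

namespace Pool.POL

open Finset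

/-- the determinant of two vectors of the plane -/
def wd (u v : Fin 2 → ℝ) : ℝ := u 0 * v 1 - u 1 * v 0

theorem wd_self (u : Fin 2 → ℝ) : wd u u = 0 := by unfold wd; ring

theorem wd_swap (u v : Fin 2 → ℝ) : wd u v = - wd v u := by unfold wd; ring

theorem wd_le {u v : Fin 2 → ℝ} {a b : ℝ} (hu : ∀ i, |u i| ≤ a) (hv : ∀ i, |v i| ≤ b) :
    |wd u v| ≤ 2 * (a * b) := by
  have ha : 0 ≤ a := (abs_nonneg _).trans (hu 0)
  unfold wd
  refine (abs_sub _ _).trans ?_
  rw [abs_mul, abs_mul]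
  have h1 := mul_le_mul (hu 0) (hv 1) (abs_nonneg _) ha
  have h2 := mul_le_mul (hu 1) (hv 0) (abs_nonneg _) ha
  linarith

/-- Plücker -/
theorem wd_pl (a b c d : Fin 2 → ℝ) :
    wd a b * wd c d = wd a c * wd b d - wd a d * wd b c := by
  unfold wd; ring

/-- Cramer -/
theorem wd_cr (a b u : Fin 2 → ℝ) (i : Fin 2) :
    wd a b * u i = wd u b * a i + wd a u * b i := by
  fin_cases i <;> simp [wd] <;> ring

variable {J : Type*}

/-- **(B1)** if two of the vectors of the first family are independent, the second family is a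
multiple of the first. -/
theorem b1 (v v' : J → Fin 2 → ℝ) (hv : ∀ j i, |v j i| ≤ 1) {ε δ : ℝ} (hε : 0 ≤ ε)
    (hc : ∀ j k, |wd (v j) (v' k) + wd (v k) (v' j)| ≤ ε) (j k : J) (hδ : 0 < δ)
    (hjk : δ ≤ |wd (v j) (v k)|) (l : J) (i : Fin 2) :
    |v' l i - wd (v' j) (v k) / wd (v j) (v k) * v l i| ≤ 8 * ε / δ ^ 2 := by
  set w := wd (v j) (v k) with hw
  have hw0 : w ≠ 0 := by
    intro h0
    rw [h0, abs_zero] at hjk
    linarith
  have hδ2 : δ ≤ 2 := by
    refine hjk.trans ((wd_le (hv j) (hv k)).trans ?_)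
    norm_num
  set α := wd (v' j) (v k) / w with hα
  let u : J → Fin 2 → ℝ := fun l i => v' l i - α * v l i
  have hcu : ∀ j k, |wd (v j) (u k) + wd (v k) (u j)| ≤ ε := by
    intro a b
    have : wd (v a) (u b) + wd (v b) (u a) = wd (v a) (v' b) + wd (v b) (v' a) := by
      simp only [wd, u]; ring
    rw [this]
    exact hc a b
  have hujk : wd (u j) (v k) = 0 := by
    have : wd (u j) (v k) = wd (v' j) (v k) - α * w := by
      simp only [wd, u, hw]; ring
    rw [this, hα, div_mul_cancel₀ _ hw0, sub_self]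
  have hd : ∀ a, |wd (v a) (u a)| ≤ ε / 2 := by
    intro a
    have := hcu a a
    rw [← two_mul, abs_mul, abs_two] at this
    linarith
  -- a bound for a vector from its two products
  have hbd : ∀ (x : Fin 2 → ℝ) (A B : ℝ), |wd x (v k)| ≤ A → |wd (v j) x| ≤ B → ∀ i,
      |x i| ≤ (A + B) / δ := by
    intro x A B hA hB i
    have h1 := wd_cr (v j) (v k) x i
    rw [← hw] at h1
    rw [le_div_iff₀ hδ]
    have h2 : |w * x i| ≤ A + B := by
      rw [h1]
      refine (abs_add_le _ _).trans ?_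
      rw [abs_mul, abs_mul]
      have h3 : |wd x (v k)| * |v j i| ≤ A * 1 :=
        mul_le_mul hA (hv j i) (abs_nonneg _) ((abs_nonneg _).trans hA)
      have h4 : |wd (v j) x| * |v k i| ≤ B * 1 :=
        mul_le_mul hB (hv k i) (abs_nonneg _) ((abs_nonneg _).trans hB)
      linarith
    rw [abs_mul] at h2
    calc |x i| * δ ≤ |x i| * |w| := mul_le_mul_of_nonneg_left hjk (abs_nonneg _)
      _ = |w| * |x i| := mul_comm _ _
      _ ≤ _ := h2
  have huj : ∀ i, |u j i| ≤ (0 + ε / 2) / δ := hbd (u j) 0 (ε / 2) (by rw [hujk, abs_zero]) (hd j)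
  have hvjuk : |wd (v j) (u k)| ≤ ε := by
    have := hcu j k
    have e : wd (v k) (u j) = 0 := by rw [wd_swap, hujk, neg_zero]
    rwa [e, add_zero] at this
  have huk : ∀ i, |u k i| ≤ (ε / 2 + ε) / δ :=
    hbd (u k) (ε / 2) ε (by rw [wd_swap, abs_neg]; exact hd k) hvjuk
  have hvjul : |wd (v j) (u l)| ≤ ε + ε / δ := by
    have h1 := hcu j l
    have h2 : |wd (v l) (u j)| ≤ ε / δ := by
      refine (wd_le (hv l) huj).trans (le_of_eq ?_)
      ring
    have h3 : wd (v j) (u l) = (wd (v j) (u l) + wd (v l) (u j)) - wd (v l) (u j) := by ring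
    rw [h3]
    refine (abs_sub _ _).trans ?_
    linarith
  have hulk : |wd (u l) (v k)| ≤ ε + 3 * (ε / δ) := by
    have h1 := hcu k l
    have h2 : |wd (v l) (u k)| ≤ 3 * (ε / δ) := by
      refine (wd_le (hv l) huk).trans (le_of_eq ?_)
      ring
    have h3 : wd (v k) (u l) = (wd (v k) (u l) + wd (v l) (u k)) - wd (v l) (u k) := by ring
    rw [wd_swap, abs_neg, h3]
    refine (abs_sub _ _).trans ?_
    linarith
  have h5 := hbd (u l) _ _ hulk hvjul i
  refine h5.trans ?_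
  rw [div_le_div_iff₀ hδ (by positivity)]
  have h6 : ε ≤ 2 * (ε / δ) := by
    rw [← mul_div_assoc, le_div_iff₀ hδ]
    nlinarith
  have h7 : ε / δ * δ = ε := div_mul_cancel₀ _ hδ.ne'
  nlinarith

/-- **(B2)** if a vector of the first family and a vector of the second family are independent then
two vectors of the first family are, and two vectors of the second family are. -/
theorem b2 (v v' : J → Fin 2 → ℝ) (hv : ∀ j i, |v j i| ≤ 1) (hv' : ∀ j i, |v' j i| ≤ 1) {ε δ : ℝ}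
    (hε : 0 ≤ ε) (hc : ∀ j k, |wd (v j) (v' k) + wd (v k) (v' j)| ≤ ε) (j k : J) (hδ : 0 < δ)
    (hjk : δ ≤ |wd (v j) (v' k)|) (he : ε ≤ δ ^ 2 / 8) :
    δ ^ 2 / 4 ≤ |wd (v j) (v k)| ∧ δ ^ 2 / 4 ≤ |wd (v' j) (v' k)| := by
  have hδ2 : δ ≤ 2 := by
    refine hjk.trans ((wd_le (hv j) (hv' k)).trans ?_)
    norm_num
  have hd : ∀ a, |wd (v a) (v' a)| ≤ ε / 2 := by
    intro a
    have := hc a a
    rw [← two_mul, abs_mul, abs_two] at this
    linarith
  set x := wd (v j) (v' k) with hx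
  have hx2 : |x| ≤ 2 := by
    refine (wd_le (hv j) (hv' k)).trans ?_
    norm_num
  have h1 : wd (v j) (v k) * wd (v' j) (v' k) =
      wd (v j) (v' j) * wd (v k) (v' k) + x ^ 2 - (x + wd (v k) (v' j)) * x := by
    have := wd_pl (v j) (v k) (v' j) (v' k)
    rw [this, ← hx]
    ring
  have h2 : |wd (v j) (v' j) * wd (v k) (v' k)| ≤ ε / 2 * (ε / 2) := by
    rw [abs_mul]
    exact mul_le_mul (hd j) (hd k) (abs_nonneg _) (by linarith)
  have h3 : |(x + wd (v k) (v' j)) * x| ≤ ε * 2 := by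
    rw [abs_mul]
    exact mul_le_mul (hc j k) hx2 (abs_nonneg _) hε
  have h4 : δ ^ 2 ≤ x ^ 2 := by
    rw [← sq_abs x]
    exact pow_le_pow_left₀ hδ.le hjk 2
  have h5 : δ ^ 2 / 2 ≤ |wd (v j) (v k) * wd (v' j) (v' k)| := by
    refine le_trans ?_ (le_abs_self _)
    rw [h1]
    have a1 := (abs_le.1 h2).1
    have a2 := (abs_le.1 h3).2
    have a4 : δ ^ 2 ≤ 4 := by nlinarith
    have a5 : ε ≤ 1 := by linarith
    have a3 : ε / 2 * (ε / 2) ≤ δ ^ 2 / 8 := by nlinarith
    linarith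
  have h6 : |wd (v j) (v k)| ≤ 2 := by
    refine (wd_le (hv j) (hv k)).trans ?_
    norm_num
  have h7 : |wd (v' j) (v' k)| ≤ 2 := by
    refine (wd_le (hv' j) (hv' k)).trans ?_
    norm_num
  rw [abs_mul] at h5
  constructor
  · have := mul_le_mul_of_nonneg_left h7 (abs_nonneg (wd (v j) (v k)))
    linarith
  · have := mul_le_mul_of_nonneg_right h6 (abs_nonneg (wd (v' j) (v' k)))
    linarith

/-! ### The coefficients of the determinant -/

variable {m : ℕ}

theorem ev_zero (L : Aff m 2) : ev L 0 = L 0 := by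
  funext i
  simp [ev]

theorem ev_single (L : Aff m 2) (j : Fin m) (s : ℝ) :
    ev L (Pi.single j s) = fun i => L 0 i + s * L j.succ i := by
  funext i
  unfold ev
  congr 1
  rw [Finset.sum_eq_single j]
  · rw [Pi.single_eq_same]
  · intro b _ hb
    rw [Pi.single_eq_of_ne hb, zero_mul]
  · intro h0
    exact absurd (mem_univ _) h0

theorem ev_add (L : Aff m 2) (p q : Fin m → ℝ) :
    ev L (p + q) = fun i => ev L p i + ev L q i - L 0 i := by
  funext i
  unfold ev
  have : ∑ j, (p + q) j * L j.succ i = ∑ j, p j * L j.succ i + ∑ j, q j * L j.succ i := by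
    rw [← Finset.sum_add_distrib]
    exact Finset.sum_congr rfl fun j _ => by rw [Pi.add_apply]; ring
  rw [this]
  ring

/-- the polarised coefficients of the determinant are small if the determinant is small on the
box. -/
theorem coef_le (L L' : Aff m 2) {ε : ℝ}
    (hW : ∀ p : Fin m → ℝ, (∀ j, |p j| ≤ 1) → |wd (ev L p) (ev L' p)| ≤ ε) (j k : Fin (m + 1)) :
    |wd (L j) (L' k) + wd (L k) (L' j)| ≤ 8 * ε := by
  classical
  have h0 : |wd (L 0) (L' 0)| ≤ ε := by
    have := hW 0 (fun j => by simp)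
    rwa [ev_zero, ev_zero] at this
  have hε : 0 ≤ ε := (abs_nonneg _).trans h0
  have hs : ∀ (j : Fin m) (s : ℝ), |s| ≤ 1 →
      |wd (fun i => L 0 i + s * L j.succ i) (fun i => L' 0 i + s * L' j.succ i)| ≤ ε := by
    intro j s hs
    have := hW (Pi.single j s) (fun k => by
      by_cases hk : k = j
      · rw [hk, Pi.single_eq_same]; exact hs
      · rw [Pi.single_eq_of_ne hk, abs_zero]; exact zero_le_one)
    rwa [ev_single, ev_single] at this
  have hdiag : ∀ j : Fin m, |wd (L j.succ) (L' j.succ)| ≤ 2 * ε := by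
    intro j
    have h1 := abs_le.1 (hs j 1 (by simp))
    have h2 := abs_le.1 (hs j (-1) (by simp))
    have h3 := abs_le.1 h0
    simp only [wd] at h1 h2 h3 ⊢
    rw [abs_le]
    constructor <;> nlinarith
  have hcr0 : ∀ j : Fin m, |wd (L 0) (L' j.succ) + wd (L j.succ) (L' 0)| ≤ ε := by
    intro j
    have h1 := abs_le.1 (hs j 1 (by simp))
    have h2 := abs_le.1 (hs j (-1) (by simp))
    simp only [wd] at h1 h2 ⊢
    rw [abs_le]
    constructor <;> nlinarith
  have hcr : ∀ j k : Fin m, j ≠ k →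
      |wd (L j.succ) (L' k.succ) + wd (L k.succ) (L' j.succ)| ≤ 8 * ε := by
    intro j k hjk
    have := hW (Pi.single j 1 + Pi.single k 1) (fun l => by
      by_cases hl : l = j
      · subst hl
        rw [Pi.add_apply, Pi.single_eq_same, Pi.single_eq_of_ne hjk, add_zero, abs_one]
      · rw [Pi.add_apply, Pi.single_eq_of_ne hl, zero_add]
        by_cases hl' : l = k
        · rw [hl', Pi.single_eq_same, abs_one]
        · rw [Pi.single_eq_of_ne hl', abs_zero]; exact zero_le_one)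
    rw [ev_add, ev_add, ev_single, ev_single, ev_single, ev_single] at this
    have h1 := abs_le.1 this
    have h2 := abs_le.1 h0
    have h3 := abs_le.1 (hdiag j)
    have h4 := abs_le.1 (hdiag k)
    have h5 := abs_le.1 (hcr0 j)
    have h6 := abs_le.1 (hcr0 k)
    simp only [wd] at h1 h2 h3 h4 h5 h6 ⊢
    rw [abs_le]
    constructor <;> nlinarith
  refine Fin.cases ?_ (fun j' => ?_) j
  · refine Fin.cases ?_ (fun k' => ?_) k
    · rw [← two_mul, abs_mul, abs_two]
      linarith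
    · exact (hcr0 k').trans (by linarith)
  · refine Fin.cases ?_ (fun k' => ?_) k
    · rw [add_comm]
      exact (hcr0 j').trans (by linarith)
    · by_cases hjk : j' = k'
      · rw [hjk, ← two_mul, abs_mul, abs_two]
        have := hdiag k'
        linarith
      · exact hcr j' k' hjk

/-! ### The dichotomy -/

/-- a family of vectors of the plane all of whose pairs are almost parallel has almost constant
direction. -/
theorem dir_of {V : Set (Fin 2 → ℝ)} (h1 : ∀ v ∈ V, ∀ i, |v i| ≤ 1) {δ : ℝ} (hδ : 0 < δ)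
    (hV : ∀ v ∈ V, ∀ w ∈ V, |wd v w| ≤ δ) :
    ∃ n : Fin 2 → ℝ, (∃ i, |n i| = 1) ∧ (∀ i, |n i| ≤ 1) ∧ ∀ v ∈ V, |wd n v| ≤ 2 * √δ := by
  have hs : 0 < √δ := Real.sqrt_pos.2 hδ
  have hss : √δ * √δ = δ := Real.mul_self_sqrt hδ.le
  by_cases hex : ∃ v ∈ V, ∃ i, √δ ≤ |v i|
  · obtain ⟨v, hv, i, hi⟩ := hex
    obtain ⟨i₀, hi₀1, hi₀2⟩ : ∃ i₀, √δ ≤ |v i₀| ∧ ∀ i, |v i| ≤ |v i₀| := by
      obtain ⟨i₀, _, h2⟩ := Finset.exists_max_image univ (fun i => |v i|) ⟨i, mem_univ _⟩
      exact ⟨i₀, hi.trans (h2 i (mem_univ _)), fun i => h2 i (mem_univ _)⟩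
    have hpos : 0 < |v i₀| := lt_of_lt_of_le hs hi₀1
    refine ⟨fun i => v i / |v i₀|, ⟨i₀, ?_⟩, fun i => ?_, fun w hw => ?_⟩
    · rw [abs_div, abs_abs, div_self hpos.ne']
    · rw [abs_div, abs_abs, div_le_one hpos]
      exact hi₀2 i
    · have e : wd (fun i => v i / |v i₀|) w = wd v w / |v i₀| := by
        unfold wd; ring
      rw [e, abs_div, abs_abs, div_le_iff₀ hpos]
      have := hV v hv w hw
      nlinarith
  · push Not at hex
    refine ⟨fun _ => 1, ⟨0, by simp⟩, fun i => by simp, fun w hw => ?_⟩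
    unfold wd
    have a0 := hex w hw 0
    have a1 := hex w hw 1
    rw [one_mul, one_mul]
    refine (abs_sub _ _).trans ?_
    linarith

/-- **Constant direction or one map.** -/
theorem two (BB : Set (Aff m 2)) (hb : ∀ L ∈ BB, ∀ j i, |L j i| ≤ 1) {ε δ : ℝ} (hδ : 0 < δ)
    (hW : ∀ L ∈ BB, ∀ L' ∈ BB, ∀ p : Fin m → ℝ, (∀ j, |p j| ≤ 1) →
      |wd (ev L p) (ev L' p)| ≤ ε) :
    (∃ n : Fin 2 → ℝ, (∃ i, |n i| = 1) ∧ (∀ i, |n i| ≤ 1) ∧
      ∀ L ∈ BB, ∀ j, |wd n (L j)| ≤ 2 * √δ) ∨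
    (∃ L₀ ∈ BB, ∀ L ∈ BB, ∃ α : ℝ, |α| ≤ 8 / δ ^ 2 ∧
      ∀ j i, |L j i - α * L₀ j i| ≤ 1024 * ε / δ ^ 4) := by
  classical
  by_cases hall : ∀ L ∈ BB, ∀ L' ∈ BB, ∀ j k, |wd (L j) (L' k)| ≤ δ
  · left
    obtain ⟨n, h1, h2, h3⟩ := dir_of (V := {v | ∃ L ∈ BB, ∃ j, v = L j}) (by
      rintro v ⟨L, hL, j, rfl⟩ i
      exact hb L hL j i) hδ (by
      rintro v ⟨L, hL, j, rfl⟩ w ⟨L', hL', k, rfl⟩
      exact hall L hL L' hL' j k)
    exact ⟨n, h1, h2, fun L hL j => h3 _ ⟨L, hL, j, rfl⟩⟩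
  · right
    push Not at hall
    obtain ⟨L, hL, L', hL', j, k, hjk⟩ := hall
    have hε : 0 ≤ ε := (abs_nonneg _).trans (hW L hL L hL 0 (fun j => by simp))
    have hδ2 : δ ≤ 2 := by
      refine hjk.le.trans ((wd_le (hb L hL j) (hb L' hL' k)).trans ?_)
      norm_num
    by_cases he : 8 * ε ≤ δ ^ 2 / 8
    · have hd : δ ^ 2 / 4 ≤ |wd (L j) (L k)| :=
        (b2 (fun j => L j) (fun j => L' j) (hb L hL) (hb L' hL') (by linarith)
          (fun a b => coef_le L L' (hW L hL L' hL') a b) j k hδ hjk.le he).1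
      refine ⟨L, hL, fun L'' hL'' => ⟨wd (L'' j) (L k) / wd (L j) (L k), ?_, fun l i => ?_⟩⟩
      · rw [abs_div]
        have hp : 0 < |wd (L j) (L k)| := lt_of_lt_of_le (by positivity) hd
        have h2 : |wd (L'' j) (L k)| ≤ 2 := by
          refine (wd_le (hb L'' hL'' j) (hb L hL k)).trans ?_
          norm_num
        rw [div_le_div_iff₀ hp (by positivity)]
        nlinarith [abs_nonneg (wd (L'' j) (L k))]
      · have := b1 (fun j => L j) (fun j => L'' j) (hb L hL) (ε := 8 * ε) (by linarith)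
          (fun a b => coef_le L L'' (hW L hL L'' hL'') a b) j k (δ := δ ^ 2 / 4) (by positivity)
          hd l i
        refine this.trans (le_of_eq ?_)
        field_simp
        ring
    · refine ⟨L, hL, fun L'' hL'' => ⟨0, ?_, fun l i => ?_⟩⟩
      · rw [abs_zero]; positivity
      · rw [zero_mul, sub_zero]
        refine (hb L'' hL'' l i).trans ?_
        rw [one_le_div (by positivity)]
        have h4 : δ ^ 4 ≤ 4 * δ ^ 2 := by
          have : δ ^ 2 ≤ 4 := by nlinarith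
          nlinarith [sq_nonneg δ]
        push Not at he
        linarith

/-- **The same with the hypothesis on a small box** around a point of the unit box. -/
theorem two_box (BB : Set (Aff m 2)) (hb : ∀ L ∈ BB, ∀ j i, |L j i| ≤ 1) {ε δ ρ : ℝ} (hδ : 0 < δ)
    (hρ : 0 < ρ) (hρ1 : ρ ≤ 1) (p₀ : Fin m → ℝ) (hp₀ : ∀ j, |p₀ j| ≤ 1)
    (hW : ∀ L ∈ BB, ∀ L' ∈ BB, ∀ p : Fin m → ℝ, (∀ j, |p j - p₀ j| ≤ ρ) →
      |wd (ev L p) (ev L' p)| ≤ ε) :
    (∃ n : Fin 2 → ℝ, (∃ i, |n i| = 1) ∧ (∀ i, |n i| ≤ 1) ∧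
      ∀ L ∈ BB, ∀ j, |wd n (L j)| ≤ 2 * √δ) ∨
    (∃ L₀ ∈ BB, ∀ L ∈ BB, ∃ α : ℝ, |α| ≤ 8 / δ ^ 2 ∧
      ∀ j i, |L j i - α * L₀ j i| ≤ 1024 * (300 * ε / ρ ^ 2) / δ ^ 4) := by
  refine two BB hb hδ fun L hL L' hL' p hp => ?_
  have hdt : ∀ q : Fin m → ℝ, dt (![L, L'] : Fin 2 → Aff m 2) q = wd (ev L q) (ev L' q) := by
    intro q
    unfold dt wd
    rw [Matrix.det_fin_two]
    simp
  have := det_box (![L, L'] : Fin 2 → Aff m 2) p₀ (R := 2) hρ (by linarith) (ε := ε) (by
    intro q hq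
    rw [hdt]
    exact hW L hL L' hL' q hq) p (by
    intro j
    have h1 := abs_le.1 (hp j)
    have h2 := abs_le.1 (hp₀ j)
    rw [abs_le]
    constructor <;> linarith)
  rw [hdt] at this
  refine this.trans (le_of_eq ?_)
  push_cast
  field_simp
  norm_num
  ring

end Pool.POL
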